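import Mathlib

/-
Kissing configurations in `ℝ⁵` (the kissing number `k(5)`, known bounds `40 ≤ k(5) ≤ 44`).

A kissing configuration is a finite set `C` of unit vectors of `ℝ⁵` at pairwise angles at least 60
degrees.  We prove:

(1) if no two vectors of `C` form an angle strictly between 120 and 180 degrees, then `|C| ≤ 40`,
    and 40 is attained; in particular the largest antipodal configuration has exactly 40 vectors;
(2) if `C` contains the 24 vertices of a regular 24-cell (in some hyperplane), then `|C| ≤ 40`, and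
    40 is attained;
(3) if the intersection of `C` with a hyperplane `H` (through the origin) is a covering of radius
    45 degrees of the unit sphere of `H`, then `|C| ≤ |C ∩ H| + 16`;
(4) for every `C`, if `b` is the number of ordered pairs of `C` at an angle larger than 120 degrees,
    then `|C|² ≤ 21 (|C| + b)`; so 41 vectors would have at least 40 such ordered pairs.

Proofs.  (1), (4): for `f(t) = t⁴ - t²/4` one has `∑_{x,y} f(⟨x,y⟩) ≥ |C|²/28 + (3/20) |∑ P_x|²`,
where `P_x = x xᵀ - I/5`: compare `∑ P_x ⊗ P_x` with the projection to the traceless symmetric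
matrices.  Hence there are at most 21 lines at pairwise angles at least 60 degrees, and for 21 lines
all inner products are `0, ±1/2` and `∑_y ⟨x,y⟩² = 21/5`, which is not of the form `1 + m/4`.
(2), (3): all other vectors are at distance at least 45 degrees from the hyperplane, and a cap of
radius 45 degrees contains at most 8 vectors, because their projections to the hyperplane are
nonzero vectors with pairwise nonpositive inner products.
-/

open Finset BigOperators

namespace Pool.Agent.Results.MP_e0d3e3_co.NoLargeAngles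

/-- the traceless part of `x ⊗ x` for a vector `x` of `ℝ⁵` -/
noncomputable def P (x : Fin 5 → ℝ) (i j : Fin 5) : ℝ := x i * x j - (if i = j then 1/5 else 0)

/-- the orthogonal projection to traceless symmetric matrices -/
noncomputable def Pr (i j k l : Fin 5) : ℝ :=
  (1/2) * (if i = k then (if j = l then 1 else 0) else 0)
    + (1/2) * (if i = l then (if j = k then 1 else 0) else 0)
    - (1/5) * (if i = j then (if k = l then 1 else 0) else 0)

def ip (x y : Fin 5 → ℝ) : ℝ := ∑ i, x i * y i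

lemma P_ip (x y : Fin 5 → ℝ) (hx : ip x x = 1) (hy : ip y y = 1) :
    ∑ i, ∑ j, P x i j * P y i j = ip x y ^ 2 - 1/5 := by
  have hx' : x 0 * x 0 + x 1 * x 1 + x 2 * x 2 + x 3 * x 3 + x 4 * x 4 = 1 := by
    simpa [ip, Fin.sum_univ_five] using hx
  have hy' : y 0 * y 0 + y 1 * y 1 + y 2 * y 2 + y 3 * y 3 + y 4 * y 4 = 1 := by
    simpa [ip, Fin.sum_univ_five] using hy
  simp only [P, ip, Fin.sum_univ_five]
  simp
  linear_combination (-1/5) * hx' + (-1/5) * hy'

lemma Pr_sq : ∑ i, ∑ j, ∑ k, ∑ l, Pr i j k l ^ 2 = 14 := by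
  simp only [Pr, Fin.sum_univ_five]
  simp
  norm_num

lemma Pr_pp (p : Fin 5 → Fin 5 → ℝ) (hs : ∀ i j, p j i = p i j) (ht : ∑ k, p k k = 0) :
    ∑ i, ∑ j, ∑ k, ∑ l, p i j * p k l * Pr i j k l = ∑ i, ∑ j, p i j * p i j := by
  have h1 : ∑ i, ∑ j, ∑ k, ∑ l, p i j * p k l * (if i = k then (if j = l then (1:ℝ) else 0) else 0)
      = ∑ i, ∑ j, p i j * p i j := by
    simp
  have h2 : ∑ i, ∑ j, ∑ k, ∑ l, p i j * p k l * (if i = l then (if j = k then (1:ℝ) else 0) else 0)
      = ∑ i, ∑ j, p i j * p i j := by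
    simp [hs]
  have h3 : ∑ i, ∑ j, ∑ k, ∑ l, p i j * p k l * (if i = j then (if k = l then (1:ℝ) else 0) else 0)
      = 0 := by
    have : ∑ i, ∑ j, ∑ k, ∑ l, p i j * p k l * (if i = j then (if k = l then (1:ℝ) else 0) else 0)
       = (∑ i, p i i) * (∑ k, p k k) := by
      rw [Finset.sum_mul]
      simp [Finset.mul_sum]
    rw [this, ht, mul_zero]
  have e : ∀ i j k l : Fin 5, p i j * p k l * Pr i j k l =
      (1/2) * (p i j * p k l * (if i = k then (if j = l then (1:ℝ) else 0) else 0))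
      + (1/2) * (p i j * p k l * (if i = l then (if j = k then (1:ℝ) else 0) else 0))
      - (1/5) * (p i j * p k l * (if i = j then (if k = l then (1:ℝ) else 0) else 0)) := by
    intro i j k l
    unfold Pr
    ring
  simp only [e, Finset.sum_add_distrib, Finset.sum_sub_distrib, ← Finset.mul_sum]
  rw [h1, h2, h3]
  ring

lemma P_symm (x : Fin 5 → ℝ) (i j : Fin 5) : P x j i = P x i j := by
  unfold P
  rw [mul_comm]
  by_cases h : i = j
  · simp [h]
  · simp [h, Ne.symm h]

lemma P_tr (x : Fin 5 → ℝ) (hx : ip x x = 1) : ∑ k, P x k k = 0 := by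
  have hx' : x 0 * x 0 + x 1 * x 1 + x 2 * x 2 + x 3 * x 3 + x 4 * x 4 = 1 := by
    simpa [ip, Fin.sum_univ_five] using hx
  simp only [P, Fin.sum_univ_five]
  simp
  linear_combination hx'

lemma Pr_PP (x : Fin 5 → ℝ) (hx : ip x x = 1) :
    ∑ i, ∑ j, ∑ k, ∑ l, P x i j * P x k l * Pr i j k l = 4/5 := by
  rw [Pr_pp _ (P_symm x) (P_tr x hx), P_ip x x hx hx, hx]
  norm_num

/-- second moment identity -/
lemma second {ι : Type*} (S : Finset ι) (v : ι → Fin 5 → ℝ) (hv : ∀ a ∈ S, ip (v a) (v a) = 1) :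
    ∑ a ∈ S, ∑ b ∈ S, (ip (v a) (v b) ^ 2 - 1/5) = ∑ i, ∑ j, (∑ a ∈ S, P (v a) i j) ^ 2 := by
  have h : ∀ a ∈ S, ∀ b ∈ S, ip (v a) (v b) ^ 2 - 1/5 = ∑ i, ∑ j, P (v a) i j * P (v b) i j :=
    fun a ha b hb => (P_ip _ _ (hv a ha) (hv b hb)).symm
  rw [Finset.sum_congr rfl (fun a ha => Finset.sum_congr rfl (fun b hb => h a ha b hb))]
  have h2 : ∀ i j, (∑ a ∈ S, P (v a) i j) ^ 2 = ∑ a ∈ S, ∑ b ∈ S, P (v a) i j * P (v b) i j := by
    intro i j
    rw [pow_two, Finset.sum_mul_sum]
  simp only [h2]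
  have e1 : ∀ a ∈ S, ∑ b ∈ S, ∑ i, ∑ j, P (v a) i j * P (v b) i j
      = ∑ i, ∑ j, ∑ b ∈ S, P (v a) i j * P (v b) i j := by
    intro a _
    rw [Finset.sum_comm]
    refine Finset.sum_congr rfl fun i _ => ?_
    rw [Finset.sum_comm]
  rw [Finset.sum_congr rfl e1]
  rw [Finset.sum_comm]
  refine Finset.sum_congr rfl fun i _ => ?_
  rw [Finset.sum_comm]

set_option maxHeartbeats 4000000 in
/-- fourth moment inequality -/
lemma fourth {ι : Type*} (S : Finset ι) (v : ι → Fin 5 → ℝ) (hv : ∀ a ∈ S, ip (v a) (v a) = 1) :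
    (8/175) * (S.card : ℝ) ^ 2 ≤ ∑ a ∈ S, ∑ b ∈ S, (ip (v a) (v b) ^ 2 - 1/5) ^ 2 := by
  set D : ι → Fin 5 → Fin 5 → Fin 5 → Fin 5 → ℝ :=
    fun a i j k l => P (v a) i j * P (v a) k l - (2/35) * Pr i j k l with hD
  have key : ∀ a ∈ S, ∀ b ∈ S, ∑ i, ∑ j, ∑ k, ∑ l, D a i j k l * D b i j k l
      = (ip (v a) (v b) ^ 2 - 1/5) ^ 2 - 8/175 := by
    intro a ha b hb
    have e : ∀ i j k l, D a i j k l * D b i j k l =
        (P (v a) i j * P (v b) i j) * (P (v a) k l * P (v b) k l)
        - (2/35) * (P (v a) i j * P (v a) k l * Pr i j k l)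
        - (2/35) * (P (v b) i j * P (v b) k l * Pr i j k l)
        + (4/1225) * Pr i j k l ^ 2 := by
      intro i j k l
      simp only [hD]
      ring
    simp only [e, Finset.sum_add_distrib, Finset.sum_sub_distrib, ← Finset.mul_sum]
    rw [Pr_PP _ (hv a ha), Pr_PP _ (hv b hb), Pr_sq]
    simp only [← Finset.sum_mul]
    rw [P_ip _ _ (hv a ha) (hv b hb)]
    ring
  have h0 : 0 ≤ ∑ a ∈ S, ∑ b ∈ S, ∑ i, ∑ j, ∑ k, ∑ l, D a i j k l * D b i j k l := by
    have e : ∑ a ∈ S, ∑ b ∈ S, ∑ i, ∑ j, ∑ k, ∑ l, D a i j k l * D b i j k l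
        = ∑ i, ∑ j, ∑ k, ∑ l, (∑ a ∈ S, D a i j k l) ^ 2 := by
      have h2 : ∀ i j k l, (∑ a ∈ S, D a i j k l) ^ 2
          = ∑ a ∈ S, ∑ b ∈ S, D a i j k l * D b i j k l := by
        intro i j k l
        rw [pow_two, Finset.sum_mul_sum]
      simp only [h2]
      have e1 : ∀ a ∈ S, ∑ b ∈ S, ∑ i, ∑ j, ∑ k, ∑ l, D a i j k l * D b i j k l
          = ∑ i, ∑ j, ∑ k, ∑ l, ∑ b ∈ S, D a i j k l * D b i j k l := by
        intro a _
        rw [Finset.sum_comm]
        refine Finset.sum_congr rfl fun i _ => ?_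
        rw [Finset.sum_comm]
        refine Finset.sum_congr rfl fun j _ => ?_
        rw [Finset.sum_comm]
        refine Finset.sum_congr rfl fun k _ => ?_
        rw [Finset.sum_comm]
      rw [Finset.sum_congr rfl e1]
      rw [Finset.sum_comm]
      refine Finset.sum_congr rfl fun i _ => ?_
      rw [Finset.sum_comm]
      refine Finset.sum_congr rfl fun j _ => ?_
      rw [Finset.sum_comm]
      refine Finset.sum_congr rfl fun k _ => ?_
      rw [Finset.sum_comm]
    rw [e]
    exact Finset.sum_nonneg fun i _ => Finset.sum_nonneg fun j _ => Finset.sum_nonneg fun k _ =>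
      Finset.sum_nonneg fun l _ => sq_nonneg _
  rw [Finset.sum_congr rfl (fun a ha => Finset.sum_congr rfl (fun b hb => key a ha b hb))] at h0
  simp only [Finset.sum_sub_distrib, Finset.sum_const, nsmul_eq_mul] at h0
  have e2 : (S.card : ℝ) * ((S.card : ℝ) * (8/175)) = (8/175) * (S.card : ℝ) ^ 2 := by ring
  rw [e2] at h0
  linarith

/-- the linear programming inequality for `f(t) = t⁴ - t²/4` -/
lemma lp {ι : Type*} (S : Finset ι) (v : ι → Fin 5 → ℝ) (hv : ∀ a ∈ S, ip (v a) (v a) = 1) :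
    (1/28) * (S.card : ℝ) ^ 2 + (3/20) * ∑ i, ∑ j, (∑ a ∈ S, P (v a) i j) ^ 2
      ≤ ∑ a ∈ S, ∑ b ∈ S, (ip (v a) (v b) ^ 4 - ip (v a) (v b) ^ 2 / 4) := by
  have h1 := second S v hv
  have h2 := fourth S v hv
  have e : ∀ a b, ip (v a) (v b) ^ 4 - ip (v a) (v b) ^ 2 / 4
      = (ip (v a) (v b) ^ 2 - 1/5) ^ 2 + (3/20) * (ip (v a) (v b) ^ 2 - 1/5) - 1/100 := by
    intro a b; ring
  simp only [e, Finset.sum_add_distrib, Finset.sum_sub_distrib, ← Finset.mul_sum,
    Finset.sum_const, nsmul_eq_mul] at h1 h2 ⊢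
  nlinarith [h1, h2]

open Classical in
lemma obtuse {E : Type*} [NormedAddCommGroup E] [InnerProductSpace ℝ E] [FiniteDimensional ℝ E] :
    ∀ (n : ℕ) (W : Submodule ℝ E), Module.finrank ℝ W = n → ∀ S : Finset E,
      (∀ x ∈ S, x ∈ W ∧ x ≠ 0) → (∀ x ∈ S, ∀ y ∈ S, x ≠ y → inner ℝ x y ≤ 0) →
      S.card ≤ 2 * n := by
  intro n
  induction n with
  | zero =>
    intro W hW S h1 _
    have hb : W = ⊥ := Submodule.finrank_eq_zero.mp hW
    have : S = ∅ := by
      rw [Finset.eq_empty_iff_forall_notMem]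
      intro x hx
      have := (h1 x hx).1
      rw [hb, Submodule.mem_bot] at this
      exact (h1 x hx).2 this
    simp [this]
  | succ n ih =>
    intro W hW S h1 h2
    by_cases hS : S = ∅
    · simp [hS]
    obtain ⟨v, hv⟩ := Finset.nonempty_iff_ne_empty.mpr hS
    have hv0 := (h1 v hv).2
    have hvv : 0 < inner ℝ v v := real_inner_self_pos.mpr hv0
    set π : E → E := fun x => x - (inner ℝ v x / inner ℝ v v) • v with hπ
    have hin : ∀ x y, inner ℝ (π x) (π y)
        = inner ℝ x y - inner ℝ v x * inner ℝ v y / inner ℝ v v := by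
      intro x y
      simp only [hπ, inner_sub_left, inner_sub_right, real_inner_smul_left, real_inner_smul_right]
      rw [real_inner_comm v x]
      field_simp
      ring
    have hW' : Module.finrank ℝ ((Submodule.span ℝ {v})ᗮ ⊓ W : Submodule ℝ E) = n := by
      have hle : Submodule.span ℝ {v} ≤ W := by
        rw [Submodule.span_singleton_le_iff_mem]; exact (h1 v hv).1
      have := Submodule.finrank_add_inf_finrank_orthogonal hle
      rw [finrank_span_singleton hv0, hW] at this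
      omega
    set T := (S.erase v).filter (fun x => π x ≠ 0) with hT
    set Z := (S.erase v).filter (fun x => ¬ (π x ≠ 0)) with hZ
    have hcard : Z.card + T.card + 1 = S.card := by
      have e1 : T.card + Z.card = (S.erase v).card := Finset.card_filter_add_card_filter_not _
      have e2 := Finset.card_erase_add_one hv
      omega
    have hneg : ∀ x ∈ S.erase v, inner ℝ v x ≤ 0 := by
      intro x hx
      exact h2 v hv x (Finset.mem_of_mem_erase hx) (Finset.ne_of_mem_erase hx).symm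
    have hpair : ∀ x ∈ S.erase v, ∀ y ∈ S.erase v, x ≠ y → inner ℝ (π x) (π y) ≤ 0 := by
      intro x hx y hy hxy
      rw [hin]
      have a := h2 x (Finset.mem_of_mem_erase hx) y (Finset.mem_of_mem_erase hy) hxy
      have b : 0 ≤ inner ℝ v x * inner ℝ v y / inner ℝ v v :=
        div_nonneg (mul_nonneg_of_nonpos_of_nonpos (hneg x hx) (hneg y hy)) hvv.le
      linarith
    have hZ1 : Z.card ≤ 1 := by
      rw [Finset.card_le_one]
      intro x hx y hy
      by_contra hxy
      rw [hZ, Finset.mem_filter, not_not] at hx hy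
      have ex : x = (inner ℝ v x / inner ℝ v v) • v := by
        have := hx.2; simp only [hπ] at this; exact sub_eq_zero.mp this
      have ey : y = (inner ℝ v y / inner ℝ v v) • v := by
        have := hy.2; simp only [hπ] at this; exact sub_eq_zero.mp this
      have nx : inner ℝ v x ≠ 0 := by
        intro h0; rw [h0, zero_div, zero_smul] at ex
        exact (h1 x (Finset.mem_of_mem_erase hx.1)).2 ex
      have ny : inner ℝ v y ≠ 0 := by
        intro h0; rw [h0, zero_div, zero_smul] at ey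
        exact (h1 y (Finset.mem_of_mem_erase hy.1)).2 ey
      have lx : inner ℝ v x < 0 := lt_of_le_of_ne (hneg x hx.1) nx
      have ly : inner ℝ v y < 0 := lt_of_le_of_ne (hneg y hy.1) ny
      have := h2 x (Finset.mem_of_mem_erase hx.1) y (Finset.mem_of_mem_erase hy.1) hxy
      have e := hin x y
      rw [hx.2, inner_zero_left] at e
      have : 0 < inner ℝ v x * inner ℝ v y / inner ℝ v v :=
        div_pos (mul_pos_of_neg_of_neg lx ly) hvv
      linarith
    have hTc : T.card ≤ 2 * n := by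
      have hinj : Set.InjOn π (T : Set E) := by
        intro x hx y hy hxy
        rw [Finset.mem_coe, hT, Finset.mem_filter] at hx hy
        by_contra hne
        have := hpair x hx.1 y hy.1 hne
        rw [hxy] at this
        have h3 : 0 < inner ℝ (π y) (π y) := real_inner_self_pos.mpr hy.2
        linarith
      rw [← Finset.card_image_of_injOn hinj]
      apply ih _ hW'
      · intro z hz
        rw [Finset.mem_image] at hz
        obtain ⟨x, hx, rfl⟩ := hz
        rw [hT, Finset.mem_filter] at hx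
        refine ⟨⟨?_, ?_⟩, hx.2⟩
        · rw [SetLike.mem_coe, Submodule.mem_orthogonal_singleton_iff_inner_right]
          simp only [hπ, inner_sub_right, real_inner_smul_right]
          field_simp
          ring
        · exact W.sub_mem (h1 x (Finset.mem_of_mem_erase hx.1)).1 (W.smul_mem _ (h1 v hv).1)
      · intro z hz w hw hzw
        rw [Finset.mem_image] at hz hw
        obtain ⟨x, hx, rfl⟩ := hz
        obtain ⟨y, hy, rfl⟩ := hw
        rw [hT, Finset.mem_filter] at hx hy
        apply hpair x hx.1 y hy.1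
        rintro rfl
        exact hzw rfl
    omega


/-- `C` is the set of touching directions of a kissing configuration in `ℝⁿ`: unit vectors at
pairwise angles at least 60 degrees -/
def Kissing (n : ℕ) (C : Finset (EuclideanSpace ℝ (Fin n))) : Prop :=
  (∀ x ∈ C, ‖x‖ = 1) ∧ ∀ x ∈ C, ∀ y ∈ C, x ≠ y → inner ℝ x y ≤ 1/2

abbrev V5 := EuclideanSpace ℝ (Fin 5)

lemma ip_eq (x y : V5) : ip (fun i => x i) (fun i => y i) = inner ℝ x y := by
  rw [PiLp.inner_apply]
  simp only [ip]
  refine Finset.sum_congr rfl fun i _ => ?_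
  simp [mul_comm]

lemma ip_self (x : V5) (hx : ‖x‖ = 1) : ip (fun i => x i) (fun i => x i) = 1 := by
  rw [ip_eq, real_inner_self_eq_norm_sq, hx, one_pow]

lemma lp5 (S : Finset V5) (hS : ∀ x ∈ S, ‖x‖ = 1) :
    (1/28) * (S.card : ℝ) ^ 2 + (3/20) * ∑ i, ∑ j, (∑ a ∈ S, P (fun i => a i) i j) ^ 2
      ≤ ∑ a ∈ S, ∑ b ∈ S, (inner ℝ a b ^ 4 - inner ℝ a b ^ 2 / 4) := by
  have := lp S (fun (a : V5) i => a i) (fun a ha => ip_self a (hS a ha))
  simpa only [ip_eq] using this

lemma f_nonpos {t : ℝ} (h : |t| ≤ 1/2) : t ^ 4 - t ^ 2 / 4 ≤ 0 := by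
  have h1 : t ^ 2 ≤ 1/4 := by
    rw [← sq_abs]; nlinarith [abs_nonneg t]
  nlinarith [sq_nonneg t]

lemma f_le {t : ℝ} (h : |t| ≤ 1) : t ^ 4 - t ^ 2 / 4 ≤ 3/4 := by
  have h1 : t ^ 2 ≤ 1 := by
    rw [← sq_abs]; nlinarith [abs_nonneg t]
  nlinarith [sq_nonneg t]

open Classical in
/-- every kissing configuration has many pairs at an angle of more than 120 degrees -/
lemma bad_pairs (C : Finset V5) (h : Kissing 5 C) :
    C.card ^ 2 ≤ 21 * (C.card + ((C ×ˢ C).filter (fun p => inner ℝ p.1 p.2 < -1/2)).card) := by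
  have h1 := lp5 C h.1
  have h0 : 0 ≤ ∑ i, ∑ j, (∑ a ∈ C, P (fun i => a i) i j) ^ 2 :=
    Finset.sum_nonneg fun i _ => Finset.sum_nonneg fun j _ => sq_nonneg _
  have h2 : ∑ a ∈ C, ∑ b ∈ C, (inner ℝ a b ^ 4 - inner ℝ a b ^ 2 / 4)
      ≤ ∑ a ∈ C, ∑ b ∈ C, ((if a = b then (3/4:ℝ) else 0)
          + (if inner ℝ a b < -1/2 then (3/4:ℝ) else 0)) := by
    refine Finset.sum_le_sum fun a ha => Finset.sum_le_sum fun b hb => ?_
    have hab : |inner ℝ a b| ≤ 1 := by
      have := abs_real_inner_le_norm a b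
      rwa [h.1 a ha, h.1 b hb, one_mul] at this
    by_cases e : a = b
    · rw [if_pos e]
      have := f_le hab
      split_ifs <;> linarith
    · rw [if_neg e]
      by_cases e2 : inner ℝ a b < -1/2
      · rw [if_pos e2]; linarith [f_le hab]
      · rw [if_neg e2]
        have := f_nonpos (t := inner ℝ a b) (by
          rw [abs_le]; constructor
          · push Not at e2; linarith
          · exact h.2 a ha b hb e)
        linarith
  have h3 : ∑ a ∈ C, ∑ b ∈ C, ((if a = b then (3/4:ℝ) else 0)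
          + (if inner ℝ a b < -1/2 then (3/4:ℝ) else 0))
      = (3/4) * C.card
        + (3/4) * ((C ×ˢ C).filter (fun p => inner ℝ p.1 p.2 < -1/2)).card := by
    simp only [Finset.sum_add_distrib]
    congr 1
    · simp only [Finset.sum_ite_eq]
      rw [Finset.sum_congr rfl (fun x hx => if_pos hx), Finset.sum_const, nsmul_eq_mul]
      ring
    · rw [← Finset.sum_product', ← Finset.sum_filter, Finset.sum_const, nsmul_eq_mul]
      ring
  rw [h3] at h2
  have h4 : (C.card : ℝ) ^ 2 ≤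
      21 * (C.card + ((C ×ˢ C).filter (fun p => inner ℝ p.1 p.2 < -1/2)).card) := by
    linarith
  exact_mod_cast h4

/-- at most 20 lines in `ℝ⁵` at pairwise angles at least 60 degrees -/
lemma lines20 (R : Finset V5) (h1 : ∀ x ∈ R, ‖x‖ = 1)
    (h2 : ∀ x ∈ R, ∀ y ∈ R, x ≠ y → |inner ℝ x y| ≤ 1/2) : R.card ≤ 20 := by
  classical
  by_contra hc
  push Not at hc
  have hl := lp5 R h1
  have h0 : 0 ≤ ∑ i, ∑ j, (∑ a ∈ R, P (fun i => a i) i j) ^ 2 :=
    Finset.sum_nonneg fun i _ => Finset.sum_nonneg fun j _ => sq_nonneg _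
  have hterm : ∀ a ∈ R, ∀ b ∈ R, (inner ℝ a b ^ 4 - inner ℝ a b ^ 2 / 4)
      ≤ (if a = b then (3/4:ℝ) else 0) := by
    intro a ha b hb
    by_cases e : a = b
    · rw [if_pos e]
      apply f_le
      have := abs_real_inner_le_norm a b
      rwa [h1 a ha, h1 b hb, one_mul] at this
    · rw [if_neg e]
      exact f_nonpos (h2 a ha b hb e)
  have hs : ∑ a ∈ R, ∑ b ∈ R, (if a = b then (3/4:ℝ) else 0) = (3/4) * R.card := by
    simp only [Finset.sum_ite_eq]
    rw [Finset.sum_congr rfl (fun x hx => if_pos hx), Finset.sum_const, nsmul_eq_mul]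
    ring
  have hup : ∑ a ∈ R, ∑ b ∈ R, (inner ℝ a b ^ 4 - inner ℝ a b ^ 2 / 4) ≤ (3/4) * (R.card : ℝ) := by
    rw [← hs]
    exact Finset.sum_le_sum fun a ha => Finset.sum_le_sum fun b hb => hterm a ha b hb
  have hc' : (21:ℝ) ≤ R.card := by exact_mod_cast hc
  have h21 : (R.card : ℝ) = 21 := by nlinarith
  rw [h21] at hl hup hs
  have hz : ∑ i, ∑ j, (∑ a ∈ R, P (fun i => a i) i j) ^ 2 = 0 := by linarith
  have heq : ∑ a ∈ R, ∑ b ∈ R, (inner ℝ a b ^ 4 - inner ℝ a b ^ 2 / 4)
      = ∑ a ∈ R, ∑ b ∈ R, (if a = b then (3/4:ℝ) else 0) := by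
    rw [hs]; linarith
  -- all moments vanish
  have hz' : ∀ i j, ∑ a ∈ R, P (fun i => a i) i j = 0 := by
    intro i j
    have a1 := (Finset.sum_eq_zero_iff_of_nonneg
      (fun i _ => Finset.sum_nonneg fun j _ => sq_nonneg _)).mp hz i (Finset.mem_univ i)
    have a2 := (Finset.sum_eq_zero_iff_of_nonneg
      (fun j _ => sq_nonneg _)).mp a1 j (Finset.mem_univ j)
    exact pow_eq_zero_iff (two_ne_zero) |>.mp a2
  obtain ⟨x, hx⟩ : R.Nonempty := by
    rw [← Finset.card_pos]; omega
  -- second moment at x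
  have hm : ∑ b ∈ R, (inner ℝ x b ^ 2 - 1/5) = 0 := by
    have e : ∀ b ∈ R, inner ℝ x b ^ 2 - 1/5
        = ∑ i, ∑ j, P (fun i => x i) i j * P (fun i => b i) i j := by
      intro b hb
      rw [P_ip _ _ (ip_self x (h1 x hx)) (ip_self b (h1 b hb)), ip_eq]
    rw [Finset.sum_congr rfl e, Finset.sum_comm]
    refine Finset.sum_eq_zero fun i _ => ?_
    rw [Finset.sum_comm]
    refine Finset.sum_eq_zero fun j _ => ?_
    rw [← Finset.mul_sum, hz' i j, mul_zero]
  -- termwise equality
  have hrow : ∀ a ∈ R, ∑ b ∈ R, (inner ℝ a b ^ 4 - inner ℝ a b ^ 2 / 4)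
      = ∑ b ∈ R, (if a = b then (3/4:ℝ) else 0) :=
    (Finset.sum_eq_sum_iff_of_le (fun a ha => Finset.sum_le_sum fun b hb => hterm a ha b hb)).mp heq
  have hent : ∀ b ∈ R, (inner ℝ x b ^ 4 - inner ℝ x b ^ 2 / 4)
      = (if x = b then (3/4:ℝ) else 0) :=
    (Finset.sum_eq_sum_iff_of_le (fun b hb => hterm x hx b hb)).mp (hrow x hx)
  -- count
  have hval : ∀ b ∈ R, inner ℝ x b ^ 2 = (if x = b then (3/4:ℝ) else 0)
      + (if inner ℝ x b ≠ 0 then (1/4:ℝ) else 0) := by
    intro b hb
    have h3 := hent b hb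
    by_cases e : x = b
    · subst e
      rw [if_pos rfl, real_inner_self_eq_norm_sq, h1 x hx]
      norm_num
    · rw [if_neg e] at h3 ⊢
      by_cases e2 : inner ℝ x b = 0
      · rw [e2]; norm_num
      · rw [if_pos e2]
        have h4 : inner ℝ x b ^ 2 * (inner ℝ x b ^ 2 - 1/4) = 0 := by linarith [h3]
        have h5 : inner ℝ x b ^ 2 ≠ 0 := pow_ne_zero 2 e2
        have h6 := (mul_eq_zero.mp h4).resolve_left h5
        linarith
  rw [Finset.sum_sub_distrib, Finset.sum_congr rfl hval, Finset.sum_add_distrib,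
    Finset.sum_ite_eq, if_pos hx, ← Finset.sum_filter, Finset.sum_const, Finset.sum_const,
    nsmul_eq_mul, nsmul_eq_mul, h21] at hm
  set m := (R.filter (fun b => inner ℝ x b ≠ 0)).card with hmdef
  have h7 : (5 * m : ℝ) = 69 := by linarith
  have h8 : 5 * m = 69 := by exact_mod_cast h7
  omega

/-- no angle strictly between 120 and 180 degrees: at most 40 points -/
theorem noLarge (C : Finset V5) (h : Kissing 5 C)
    (h2 : ∀ x ∈ C, ∀ y ∈ C, ¬ (-1 < inner ℝ x y ∧ inner ℝ x y < -1/2)) : C.card ≤ 40 := by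
  classical
  -- a maximal antipode free subset
  set F := C.powerset.filter (fun R => ∀ x ∈ R, -x ∉ R) with hF
  have hFne : F.Nonempty := ⟨∅, by simp [hF]⟩
  obtain ⟨R, hR, hmax⟩ := Finset.exists_max_image F Finset.card hFne
  rw [hF, Finset.mem_filter, Finset.mem_powerset] at hR
  have hcov : C ⊆ R ∪ R.image (fun x => -x) := by
    intro x hx
    rw [Finset.mem_union, Finset.mem_image]
    by_contra hno
    push Not at hno
    have hxR := hno.1
    have hnx : -x ∉ R := fun hh => hno.2 (-x) hh (neg_neg x)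
    have hx0 : x ≠ -x := by
      intro e
      have : x = 0 := by
        have h3 : (2:ℝ) • x = 0 := by rw [two_smul]; nth_rewrite 2 [e]; exact add_neg_cancel x
        exact (smul_eq_zero.mp h3).resolve_left two_ne_zero
      have := h.1 x hx
      rw [‹x = 0›, norm_zero] at this
      exact zero_ne_one this
    have hmem : insert x R ∈ F := by
      rw [hF, Finset.mem_filter, Finset.mem_powerset]
      refine ⟨Finset.insert_subset hx hR.1, ?_⟩
      intro y hy
      rw [Finset.mem_insert] at hy ⊢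
      push Not
      rcases hy with rfl | hy
      · exact ⟨hx0.symm, hnx⟩
      · refine ⟨?_, hR.2 y hy⟩
        intro e
        apply hnx
        rw [← e, neg_neg]; exact hy
    have := hmax _ hmem
    rw [Finset.card_insert_of_notMem hxR] at this
    omega
  have h20 : R.card ≤ 20 := by
    apply lines20 R (fun x hx => h.1 x (hR.1 hx))
    intro x hx y hy hxy
    rw [abs_le]
    refine ⟨?_, h.2 x (hR.1 hx) y (hR.1 hy) hxy⟩
    by_contra hlt
    push Not at hlt
    have h3 := h2 x (hR.1 hx) y (hR.1 hy)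
    have h4 : ¬ (-1 < inner ℝ x y) := fun h5 => h3 ⟨h5, by linarith⟩
    push Not at h4
    have h5 : -y = x := by
      have e : ‖x + y‖ ^ 2 ≤ 0 := by
        rw [norm_add_sq_real, h.1 x (hR.1 hx), h.1 y (hR.1 hy)]
        linarith
      have e2 : ‖x + y‖ = 0 := by
        have := sq_nonneg ‖x + y‖
        exact pow_eq_zero_iff (two_ne_zero) |>.mp (le_antisymm e this)
      rw [norm_eq_zero] at e2
      exact (eq_neg_of_add_eq_zero_left e2).symm
    exact hR.2 y hy (h5 ▸ hx)
  have e1 := Finset.card_le_card hcov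
  have e2 := Finset.card_union_le R (R.image (fun x => -x))
  have e3 : (R.image (fun x => -x)).card ≤ R.card := Finset.card_image_le
  omega


/-- at most `8` points of a kissing configuration of `ℝ⁵` lie in a cap of radius 45 degrees -/
lemma cap8 (S : Finset V5) (u : V5) (hu : ‖u‖ = 1) (h : Kissing 5 S)
    (h1 : ∀ x ∈ S, 1/2 ≤ inner ℝ u x ^ 2) (h2 : ∀ x ∈ S, ∀ z ∈ S, 0 < inner ℝ u x * inner ℝ u z) :
    S.card ≤ 8 := by
  classical
  by_cases hS : S.card ≤ 1
  · omega
  push Not at hS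
  have hprod : ∀ x ∈ S, ∀ z ∈ S, 1/2 ≤ inner ℝ u x * inner ℝ u z := by
    intro x hx z hz
    have a := h1 x hx
    have c := h1 z hz
    have d := h2 x hx z hz
    have e : 1/4 ≤ (inner ℝ u x * inner ℝ u z) ^ 2 := by
      rw [mul_pow]; nlinarith
    nlinarith
  have huu : inner ℝ u u = (1:ℝ) := by rw [real_inner_self_eq_norm_sq, hu, one_pow]
  set ρ : V5 → V5 := fun x => x - inner ℝ u x • u with hρ
  have hin : ∀ x z, inner ℝ (ρ x) (ρ z) = inner ℝ x z - inner ℝ u x * inner ℝ u z := by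
    intro x z
    simp only [hρ, inner_sub_left, inner_sub_right, real_inner_smul_left, real_inner_smul_right]
    rw [real_inner_comm u x, huu]
    ring
  have hne : ∀ x ∈ S, ρ x ≠ 0 := by
    intro x hx h0
    obtain ⟨z, hz, hzx⟩ := Finset.exists_mem_ne hS x
    have a := hin x x
    rw [h0, inner_zero_left, real_inner_self_eq_norm_sq, h.1 x hx] at a
    have c := hin x z
    rw [h0, inner_zero_left] at c
    have d := h.2 x hx z hz hzx.symm
    have e := h1 z hz
    have f : (inner ℝ u x * inner ℝ u z) ^ 2 = inner ℝ u z ^ 2 := by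
      rw [mul_pow]
      have : inner ℝ u x ^ 2 = 1 := by nlinarith
      rw [this, one_mul]
    have g := hprod x hx z hz
    nlinarith
  have hneg : ∀ x ∈ S, ∀ z ∈ S, x ≠ z → inner ℝ (ρ x) (ρ z) ≤ 0 := by
    intro x hx z hz hxz
    rw [hin]
    have := h.2 x hx z hz hxz
    have := hprod x hx z hz
    linarith
  have hinj : Set.InjOn ρ (S : Set V5) := by
    intro x hx z hz hxz
    by_contra hcon
    have := hneg x hx z hz hcon
    rw [hxz] at this
    have h3 : 0 < inner ℝ (ρ z) (ρ z) := real_inner_self_pos.mpr (hne z hz)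
    linarith
  have hu0 : u ≠ 0 := by
    intro h0; rw [h0, norm_zero] at hu; exact zero_ne_one hu
  have hW : Module.finrank ℝ ((Submodule.span ℝ {u})ᗮ : Submodule ℝ V5) = 4 := by
    have := Submodule.finrank_add_finrank_orthogonal (Submodule.span ℝ {u} : Submodule ℝ V5)
    rw [finrank_span_singleton hu0, finrank_euclideanSpace_fin] at this
    omega
  rw [← Finset.card_image_of_injOn hinj]
  have := obtuse 4 ((Submodule.span ℝ {u})ᗮ : Submodule ℝ V5) hW (S.image ρ) (by
    intro w hw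
    rw [Finset.mem_image] at hw
    obtain ⟨x, hx, rfl⟩ := hw
    refine ⟨?_, hne x hx⟩
    rw [Submodule.mem_orthogonal_singleton_iff_inner_right]
    simp only [hρ, inner_sub_right, real_inner_smul_right, huu]
    ring) (by
    intro w hw w' hw' hww
    rw [Finset.mem_image] at hw hw'
    obtain ⟨x, hx, rfl⟩ := hw
    obtain ⟨y, hy, rfl⟩ := hw'
    apply hneg x hx y hy
    rintro rfl
    exact hww rfl)
  omega

lemma four_sq (a : Fin 4 → ℝ) (q : ℝ) (h0 : ∀ i, 0 ≤ a i) (h : ∀ i j, i < j → a i + a j ≤ q) :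
    ∑ i, a i ^ 2 ≤ q ^ 2 := by
  rw [Fin.sum_univ_four]
  have h01 := h 0 1 (by decide)
  have h02 := h 0 2 (by decide)
  have h03 := h 0 3 (by decide)
  have h12 := h 1 2 (by decide)
  have h13 := h 1 3 (by decide)
  have h23 := h 2 3 (by decide)
  have a0 := h0 0
  have a1 := h0 1
  have a2 := h0 2
  have a3 := h0 3
  have key : ∀ x y z w : ℝ, 0 ≤ x → 0 ≤ y → 0 ≤ z → 0 ≤ w → x + y ≤ q → x + z ≤ q → x + w ≤ q →
      q / 2 < x → x ^ 2 + y ^ 2 + z ^ 2 + w ^ 2 ≤ q ^ 2 := by
    intro x y z w hx hy hz hw h1 h2 h3 h4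
    have e1 : y ^ 2 ≤ (q - x) ^ 2 := by nlinarith
    have e2 : z ^ 2 ≤ (q - x) ^ 2 := by nlinarith
    have e3 : w ^ 2 ≤ (q - x) ^ 2 := by nlinarith
    nlinarith [mul_nonneg (by linarith : 0 ≤ 2 * x - q) (by linarith : 0 ≤ q - x)]
  by_cases c0 : q / 2 < a 0
  · linarith [key (a 0) (a 1) (a 2) (a 3) a0 a1 a2 a3 h01 h02 h03 c0]
  by_cases c1 : q / 2 < a 1
  · linarith [key (a 1) (a 0) (a 2) (a 3) a1 a0 a2 a3 (by linarith) h12 h13 c1]
  by_cases c2 : q / 2 < a 2
  · linarith [key (a 2) (a 0) (a 1) (a 3) a2 a0 a1 a3 (by linarith) (by linarith) h23 c2]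
  by_cases c3 : q / 2 < a 3
  · linarith [key (a 3) (a 0) (a 1) (a 2) a3 a0 a1 a2 (by linarith) (by linarith) (by linarith) c3]
  push Not at c0 c1 c2 c3
  nlinarith

/-- the sign `±1` -/
def sg : Bool → ℝ
  | true => 1
  | false => -1

/-- the 24 vertices `(± b_i ± b_j)/√2`, `0 ≤ i < j ≤ 3`, of a regular 24-cell in the hyperplane
spanned by `b 0, b 1, b 2, b 3` -/
noncomputable def cell (b : OrthonormalBasis (Fin 5) ℝ V5) (i j : Fin 4) (s t : Bool) : V5 :=
  (1 / √2) • (sg s • b i.castSucc + sg t • b j.castSucc)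

set_option maxHeartbeats 2000000 in
/-- a kissing configuration of `ℝ⁵` containing a regular 24-cell has at most 40 points -/
theorem with24 (C : Finset V5) (h : Kissing 5 C) (b : OrthonormalBasis (Fin 5) ℝ V5)
    (hb : ∀ i j : Fin 4, i < j → ∀ s t : Bool, cell b i j s t ∈ C) : C.card ≤ 40 := by
  classical
  set I0 : Finset ((Fin 4 × Fin 4) × (Bool × Bool)) :=
    ((univ : Finset (Fin 4 × Fin 4)).filter (fun p => p.1 < p.2)) ×ˢ
      (univ : Finset (Bool × Bool)) with hI0
  have hI : I0.card = 24 := by rw [hI0]; decide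
  set Rt : Finset V5 := I0.image (fun p => cell b p.1.1 p.1.2 p.2.1 p.2.2) with hRt
  have hRc : Rt.card ≤ 24 := by rw [← hI]; exact Finset.card_image_le
  set N := C \ Rt with hN
  have hu : ‖b 4‖ = 1 := b.orthonormal.1 4
  have hNprop : ∀ x ∈ N, 1/2 ≤ inner ℝ (b 4) x ^ 2 := by
    intro x hx
    rw [hN, Finset.mem_sdiff] at hx
    have hroot : ∀ i j : Fin 4, i < j → ∀ s t : Bool,
        (1 / √2) * (sg s * inner ℝ (b i.castSucc) x + sg t * inner ℝ (b j.castSucc) x) ≤ 1/2 := by
      intro i j hij s t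
      have hne : cell b i j s t ≠ x := by
        rintro rfl
        apply hx.2
        rw [hRt, Finset.mem_image]
        refine ⟨((i, j), (s, t)), ?_, rfl⟩
        rw [hI0]
        simp [hij]
      have := h.2 _ (hb i j hij s t) x hx.1 hne
      rw [cell, real_inner_smul_left, inner_add_left, real_inner_smul_left,
        real_inner_smul_left] at this
      exact this
    have hs2 : (0:ℝ) < √2 := by positivity
    have hs2' : √2 * √2 = 2 := Real.mul_self_sqrt (by norm_num)
    have habs : ∀ i j : Fin 4, i < j →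
        |inner ℝ (b i.castSucc) x| + |inner ℝ (b j.castSucc) x| ≤ √2 / 2 := by
      intro i j hij
      have e : ∀ r : ℝ, ∃ s : Bool, |r| = sg s * r := by
        intro r
        rcases le_total 0 r with h0 | h0
        · exact ⟨true, by simp [sg, abs_of_nonneg h0]⟩
        · exact ⟨false, by simp [sg, abs_of_nonpos h0]⟩
      obtain ⟨s, hs⟩ := e (inner ℝ (b i.castSucc) x)
      obtain ⟨t, ht⟩ := e (inner ℝ (b j.castSucc) x)
      rw [hs, ht]
      have := hroot i j hij s t
      rw [one_div, inv_mul_le_iff₀ hs2] at this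
      linarith
    have h4 := four_sq (fun i => |inner ℝ (b i.castSucc) x|) (√2 / 2)
      (fun i => abs_nonneg _) habs
    simp only [sq_abs] at h4
    have hq : (√2 / 2) ^ 2 = 1/2 := by rw [div_pow, pow_two, hs2']; norm_num
    rw [hq] at h4
    have hnorm : ∑ i, inner ℝ (b i) x ^ 2 = 1 := by
      have := b.sum_sq_norm_inner_right x
      simp only [Real.norm_eq_abs, sq_abs] at this
      rw [this, h.1 x hx.1, one_pow]
    rw [Fin.sum_univ_castSucc] at hnorm
    have e5 : (Fin.last 4 : Fin 5) = 4 := rfl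
    rw [e5] at hnorm
    linarith
  have hNK : ∀ T ⊆ N, Kissing 5 T := by
    intro T hT
    refine ⟨fun x hx => h.1 x (Finset.sdiff_subset (hT hx)), fun x hx y hy hxy => ?_⟩
    exact h.2 x (Finset.sdiff_subset (hT hx)) y (Finset.sdiff_subset (hT hy)) hxy
  have hP : (N.filter (fun x => 0 < inner ℝ (b 4) x)).card ≤ 8 := by
    apply cap8 _ (b 4) hu (hNK _ (Finset.filter_subset _ _))
    · intro x hx
      exact hNprop x (Finset.mem_of_mem_filter x hx)
    · intro x hx z hz
      rw [Finset.mem_filter] at hx hz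
      exact mul_pos hx.2 hz.2
  have hQ : (N.filter (fun x => ¬ (0 < inner ℝ (b 4) x))).card ≤ 8 := by
    apply cap8 _ (b 4) hu (hNK _ (Finset.filter_subset _ _))
    · intro x hx
      exact hNprop x (Finset.mem_of_mem_filter x hx)
    · intro x hx z hz
      rw [Finset.mem_filter, not_lt] at hx hz
      have hx' : inner ℝ (b 4) x < 0 := by
        rcases hx.2.lt_or_eq with h0 | h0
        · exact h0
        · have := hNprop x hx.1
          rw [h0] at this; norm_num at this
      have hz' : inner ℝ (b 4) z < 0 := by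
        rcases hz.2.lt_or_eq with h0 | h0
        · exact h0
        · have := hNprop z hz.1
          rw [h0] at this; norm_num at this
      exact mul_pos_of_neg_of_neg hx' hz'
  have e1 := Finset.card_filter_add_card_filter_not (s := N) (fun x => 0 < inner ℝ (b 4) x)
  have e2 : C.card ≤ Rt.card + N.card := by
    have : C ⊆ Rt ∪ N := by
      intro x hx
      rw [Finset.mem_union, hN, Finset.mem_sdiff]
      by_cases hr : x ∈ Rt
      · exact Or.inl hr
      · exact Or.inr ⟨hx, hr⟩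
    exact (Finset.card_le_card this).trans (Finset.card_union_le _ _)
  omega


/-- a hyperplane section which covers the equator with radius 45 degrees -/
theorem covering (C : Finset V5) (h : Kissing 5 C) (u : V5) (hu : ‖u‖ = 1)
    (hcov : ∀ y : V5, ‖y‖ = 1 → inner ℝ u y = 0 → ∃ c ∈ C, inner ℝ u c = 0 ∧ √2 / 2 ≤ inner ℝ c y) :
    C.card ≤ {c ∈ C | inner ℝ u c = 0}.card + 16 := by
  classical
  set N := C.filter (fun c => ¬ (inner ℝ u c = 0)) with hN
  have huu : inner ℝ u u = (1:ℝ) := by rw [real_inner_self_eq_norm_sq, hu, one_pow]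
  have hs2 : (0:ℝ) < √2 := by positivity
  have hs2' : √2 * √2 = 2 := Real.mul_self_sqrt (by norm_num)
  have hNprop : ∀ x ∈ N, 1/2 ≤ inner ℝ u x ^ 2 := by
    intro x hx
    rw [hN, Finset.mem_filter] at hx
    set y0 := x - inner ℝ u x • u with hy0
    have hn : ‖y0‖ ^ 2 = 1 - inner ℝ u x ^ 2 := by
      rw [← real_inner_self_eq_norm_sq]
      simp only [hy0, inner_sub_left, inner_sub_right, real_inner_smul_left, real_inner_smul_right]
      rw [real_inner_comm u x, huu, real_inner_self_eq_norm_sq, h.1 x hx.1]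
      ring
    by_cases h0 : y0 = 0
    · rw [h0, norm_zero] at hn
      nlinarith
    have hpos : 0 < ‖y0‖ := norm_pos_iff.mpr h0
    obtain ⟨c, hc, hc0, hcy⟩ := hcov (‖y0‖⁻¹ • y0) (by
      rw [norm_smul, norm_inv, norm_norm, inv_mul_cancel₀ hpos.ne']) (by
      rw [real_inner_smul_right, hy0, inner_sub_right, real_inner_smul_right, huu]
      ring)
    have hne : c ≠ x := by
      rintro rfl
      exact hx.2 hc0
    have h3 := h.2 c hc x hx.1 hne
    have h4 : inner ℝ c y0 = inner ℝ c x := by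
      rw [hy0, inner_sub_right, real_inner_smul_right, real_inner_comm u c, hc0]
      ring
    rw [real_inner_smul_right, h4, ← div_eq_inv_mul, le_div_iff₀ hpos] at hcy
    have h5 : √2 * ‖y0‖ ≤ 1 := by linarith
    have h6 : (√2 * ‖y0‖) ^ 2 ≤ 1 := by
      have : 0 ≤ √2 * ‖y0‖ := by positivity
      nlinarith
    rw [mul_pow, pow_two √2, hs2', hn] at h6
    linarith
  have hNK : ∀ T ⊆ N, Kissing 5 T := by
    intro T hT
    refine ⟨fun x hx => h.1 x (Finset.filter_subset _ _ (hT hx)), fun x hx y hy hxy => ?_⟩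
    exact h.2 x (Finset.filter_subset _ _ (hT hx)) y (Finset.filter_subset _ _ (hT hy)) hxy
  have hP : (N.filter (fun x => 0 < inner ℝ u x)).card ≤ 8 := by
    apply cap8 _ u hu (hNK _ (Finset.filter_subset _ _))
    · intro x hx
      exact hNprop x (Finset.mem_of_mem_filter x hx)
    · intro x hx z hz
      rw [Finset.mem_filter] at hx hz
      exact mul_pos hx.2 hz.2
  have hQ : (N.filter (fun x => ¬ (0 < inner ℝ u x))).card ≤ 8 := by
    apply cap8 _ u hu (hNK _ (Finset.filter_subset _ _))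
    · intro x hx
      exact hNprop x (Finset.mem_of_mem_filter x hx)
    · intro x hx z hz
      rw [Finset.mem_filter, not_lt] at hx hz
      have hx' : inner ℝ u x < 0 :=
        lt_of_le_of_ne hx.2 (Finset.mem_filter.mp hx.1).2
      have hz' : inner ℝ u z < 0 :=
        lt_of_le_of_ne hz.2 (Finset.mem_filter.mp hz.1).2
      exact mul_pos_of_neg_of_neg hx' hz'
  have e1 := Finset.card_filter_add_card_filter_not (s := N) (fun x => 0 < inner ℝ u x)
  have e2 := Finset.card_filter_add_card_filter_not (s := C) (fun x => inner ℝ u x = 0)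
  rw [← hN] at e2
  omega

/-! ### the root system `D₅` -/

def sgZ : Bool → ℤ
  | true => 1
  | false => -1

lemma sgZ_cast (s : Bool) : ((sgZ s : ℤ) : ℝ) = sg s := by cases s <;> simp [sgZ, sg]

abbrev Idx := (Fin 5 × Fin 5) × (Bool × Bool)

def w (p : Idx) (k : Fin 5) : ℤ :=
  (if k = p.1.1 then sgZ p.2.1 else 0) + (if k = p.1.2 then sgZ p.2.2 else 0)

def dot (p q : Idx) : ℤ := w p 0 * w q 0 + w p 1 * w q 1 + w p 2 * w q 2 + w p 3 * w q 3
  + w p 4 * w q 4

def J0 : Finset Idx := ((univ : Finset (Fin 5 × Fin 5)).filter (fun p => p.1 < p.2)) ×ˢ univ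

set_option maxRecDepth 100000 in
lemma J0_card : J0.card = 40 := by decide

set_option maxRecDepth 100000 in
lemma J0_dot : ∀ p ∈ J0, ∀ q ∈ J0, (p = q → dot p q = 2) ∧ (p ≠ q → dot p q ≤ 1) := by
  decide +kernel

noncomputable def vec (p : Idx) : V5 := (1 / √2) • WithLp.toLp 2 (fun k => (w p k : ℝ))

lemma vec_inner (p q : Idx) : inner ℝ (vec p) (vec q) = (dot p q : ℝ) / 2 := by
  have hs2' : √2 * √2 = 2 := Real.mul_self_sqrt (by norm_num)
  have hs : (√2)⁻¹ * (√2)⁻¹ = 1/2 := by rw [← mul_inv, hs2']; norm_num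
  rw [vec, vec, real_inner_smul_left, real_inner_smul_right, PiLp.inner_apply, Fin.sum_univ_five]
  simp only [one_div, RCLike.inner_apply, conj_trivial, dot]
  push_cast
  linear_combination ((w p 0 : ℝ) * w q 0 + w p 1 * w q 1 + w p 2 * w q 2 + w p 3 * w q 3
    + w p 4 * w q 4) * hs

open Classical in
noncomputable def D5 : Finset V5 := J0.image vec

lemma D5_kissing : Kissing 5 D5 := by
  classical
  constructor
  · intro x hx
    rw [D5, Finset.mem_image] at hx
    obtain ⟨p, hp, rfl⟩ := hx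
    have h1 := vec_inner p p
    rw [(J0_dot p hp p hp).1 rfl, real_inner_self_eq_norm_sq] at h1
    push_cast at h1
    have h2 : ‖vec p‖ ^ 2 = 1 := by rw [h1]; norm_num
    have := norm_nonneg (vec p)
    nlinarith
  · intro x hx y hy hxy
    rw [D5, Finset.mem_image] at hx hy
    obtain ⟨p, hp, rfl⟩ := hx
    obtain ⟨q, hq, rfl⟩ := hy
    have hpq : p ≠ q := by rintro rfl; exact hxy rfl
    have h1 := (J0_dot p hp q hq).2 hpq
    rw [vec_inner]
    have h2 : (dot p q : ℝ) ≤ 1 := by exact_mod_cast h1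
    linarith

lemma D5_card : D5.card = 40 := by
  classical
  rw [D5, Finset.card_image_of_injOn, J0_card]
  intro p hp q hq hpq
  by_contra hne
  have h1 := vec_inner p q
  have h2 := vec_inner p p
  rw [← hpq, h2, (J0_dot p hp p hp).1 rfl] at h1
  have h3 : (dot p q : ℝ) = 2 := by push_cast at h1; linarith
  have h4 : dot p q = 2 := by exact_mod_cast h3
  have := (J0_dot p hp q hq).2 hne
  omega

lemma D5_noLarge : ∀ x ∈ D5, ∀ y ∈ D5, ¬ (-1 < inner ℝ x y ∧ inner ℝ x y < -1/2) := by
  classical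
  intro x hx y hy
  rw [D5, Finset.mem_image] at hx hy
  obtain ⟨p, hp, rfl⟩ := hx
  obtain ⟨q, hq, rfl⟩ := hy
  rw [vec_inner]
  rintro ⟨h1, h2⟩
  have h3 : (-2:ℝ) < dot p q := by linarith
  have h4 : (dot p q : ℝ) < -1 := by linarith
  have h5 : -2 < dot p q := by exact_mod_cast h3
  have h6 : dot p q < -1 := by exact_mod_cast h4
  omega

lemma D5_cell : ∀ i j : Fin 4, i < j → ∀ s t : Bool,
    cell (EuclideanSpace.basisFun (Fin 5) ℝ) i j s t ∈ D5 := by
  classical
  intro i j hij s t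
  rw [D5, Finset.mem_image]
  refine ⟨((i.castSucc, j.castSucc), (s, t)), ?_, ?_⟩
  · rw [J0]
    simp [hij]
  · rw [vec, cell]
    congr 1
    ext k
    simp only [w, EuclideanSpace.basisFun_apply, PiLp.add_apply, PiLp.smul_apply,
      PiLp.single_apply, smul_eq_mul]
    push_cast
    rw [← sgZ_cast s, ← sgZ_cast t]
    by_cases a : k = i.castSucc <;> by_cases c : k = j.castSucc <;> simp [a, c]


lemma w_neg (i j : Fin 5) (s t : Bool) (k : Fin 5) :
    w ((i, j), (!s, !t)) k = - w ((i, j), (s, t)) k := by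
  simp only [w]
  cases s <;> cases t <;> split_ifs <;> simp [sgZ]

lemma vec_neg (i j : Fin 5) (s t : Bool) : vec ((i, j), (!s, !t)) = -vec ((i, j), (s, t)) := by
  rw [vec, vec, ← smul_neg]
  congr 1
  ext k
  simp only [PiLp.neg_apply, w_neg]
  push_cast
  rfl

lemma D5_antipodal : ∀ x ∈ D5, -x ∈ D5 := by
  classical
  intro x hx
  rw [D5, Finset.mem_image] at hx ⊢
  obtain ⟨⟨⟨i, j⟩, ⟨s, t⟩⟩, hp, rfl⟩ := hx
  refine ⟨((i, j), (!s, !t)), ?_, vec_neg i j s t⟩
  rw [J0, Finset.mem_product] at hp ⊢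
  exact ⟨hp.1, Finset.mem_univ _⟩

/-- no two vectors of `C` form an angle strictly between 120 and 180 degrees -/
def NoLargeAngle (C : Finset V5) : Prop :=
  ∀ x ∈ C, ∀ y ∈ C, ¬ (-1 < inner ℝ x y ∧ inner ℝ x y < -1/2)

/-- `C` is symmetric about the origin -/
def Antipodal (C : Finset V5) : Prop := ∀ x ∈ C, -x ∈ C

/-- `C` contains the vertices of a regular 24-cell -/
def ContainsCell (C : Finset V5) : Prop :=
  ∃ b : OrthonormalBasis (Fin 5) ℝ V5, ∀ i j : Fin 4, i < j → ∀ s t : Bool, cell b i j s t ∈ C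

lemma antipodal_noLarge (C : Finset V5) (h : Kissing 5 C) (h2 : Antipodal C) : NoLargeAngle C := by
  rintro x hx y hy ⟨h3, h4⟩
  have hne : x ≠ -y := by
    rintro rfl
    rw [inner_neg_left, real_inner_self_eq_norm_sq, h.1 y hy] at h3
    norm_num at h3
  have := h.2 x hx (-y) (h2 y hy) hne
  rw [inner_neg_right] at this
  linarith

open Classical in
/-- **Kissing configurations in dimension five.** -/
theorem result :
    IsGreatest {n | ∃ C : Finset V5, Kissing 5 C ∧ NoLargeAngle C ∧ C.card = n} 40 ∧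
    IsGreatest {n | ∃ C : Finset V5, Kissing 5 C ∧ Antipodal C ∧ C.card = n} 40 ∧
    IsGreatest {n | ∃ C : Finset V5, Kissing 5 C ∧ ContainsCell C ∧ C.card = n} 40 ∧
    (∀ C : Finset V5, Kissing 5 C → ∀ u : V5, ‖u‖ = 1 →
      (∀ y : V5, ‖y‖ = 1 → inner ℝ u y = 0 → ∃ c ∈ C, inner ℝ u c = 0 ∧ √2 / 2 ≤ inner ℝ c y) →
      C.card ≤ {c ∈ C | inner ℝ u c = 0}.card + 16) ∧
    (∀ C : Finset V5, Kissing 5 C →
      C.card ^ 2 ≤ 21 * (C.card + {p ∈ C ×ˢ C | inner ℝ p.1 p.2 < -1/2}.card)) := by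
  refine ⟨⟨⟨D5, D5_kissing, D5_noLarge, D5_card⟩, ?_⟩,
    ⟨⟨D5, D5_kissing, D5_antipodal, D5_card⟩, ?_⟩,
    ⟨⟨D5, D5_kissing, ⟨_, D5_cell⟩, D5_card⟩, ?_⟩, ?_, ?_⟩
  · rintro n ⟨C, h1, h2, rfl⟩
    exact noLarge C h1 h2
  · rintro n ⟨C, h1, h2, rfl⟩
    exact noLarge C h1 (antipodal_noLarge C h1 h2)
  · rintro n ⟨C, h1, ⟨b, hb⟩, rfl⟩
    exact with24 C h1 b hb
  · intro C h u hu hcov
    convert covering C h u hu hcov
  · intro C h
    convert bad_pairs C h

end Pool.Agent.Results.MP_e0d3e3_co.NoLargeAngles
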